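import Pool.Agent.W2helper36.WM.Defs

/-!
# Families over a `p`-adic curve: definitions

`K` is a finite extension of `ℚ_p` with residue field `k` of `q` elements, `C` is a smooth connected
curve over `K`, `X → C` is a smooth projective family, and `V` is the cohomology of degree `i` of the
fibres, with coefficients in an algebraic closure `Ω` of `ℚ_ℓ`, `ℓ ≠ p`.

Let `𝒞` be a semistable model over `O_K` of the smooth compactification of `C`, such that the
cusps (the points outside `C`) are disjoint sections in the smooth locus of the special fibre. We
suppose that the geometric monodromy of the family is pro-`ℓ` and that `K` is large enough; this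
holds after the family has been pulled back to a finite covering of `C` (the covering which
trivialises the cohomology modulo `ℓ`, modulo `4` if `ℓ = 2`) and after a finite extension of `K`.
Let `E` be an irreducible component of the special fibre of `𝒞`, `E°` the complement of the nodes
and of the cusps. The points of `C` over finite extensions of `K` reduce to closed points of `E°` for
some `E`, to nodes or to cusps.

* The cohomology of degree `i` of the fibres is tamely ramified and unipotent along `E°`. So its
  nearby cycles are a lisse sheaf on `E°`, i.e. a representation `ρ` of the Weil group `G` of `E°` on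
  `V`, with the logarithm `mon : V → V(-1)` of the monodromy of the inertia group of `K`. `deg` is the
  degree of the elements of the Weil group, `pt x` is a geometric Frobenius element at the closed
  point `x` of `E°`, of degree `f x = [k(x) : k]`. If `s` is a point of `C` over `K'` which reduces to
  `x` then `H^i(X_s) = V`, the logarithm of the monodromy of `K'` is `e mon`, with the ramification
  index `e` of `K'` over `K`, and the Frobenius elements of the Weil group of `K'` act by
  `exp(m mon) (ρ (pt x)) ^ g`, with `m ∈ Ω` and the residue degree `g` of `K'` over the unramified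
  extension of degree `f x` of `K`. This is the special case `loc = 0` of the cohomology of the fibres
  over an annulus (`Annulus.monAt`, `Annulus.frobAt`), here over the open disc of the points which
  reduce to `x`: `disc x`.
* The points of `C` which reduce to a node or cusp `y` of `E` form an annulus or punctured disc. `V` is
  also the cohomology of the fibres over this annulus, and `cusp y`, `loc y` are a geometric Frobenius
  element at `y` (the branch of `E` at `y` is rational over `k`) and the logarithm of the local
  monodromy of the lisse sheaf at `y`, which is also the logarithm of the monodromy of the annulus: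
  `annulus y`.
-/

set_option autoImplicit false

open Module

namespace Pool.Agent.W2helper36.WN

open Pool.Agent.Y143 Pool.Agent.W2helper36.WM

section

variable {Ω : Type} [Field Ω] {V : Type} [AddCommGroup V] [Module Ω V]

/-- The operator induced by `T` on the quotient `A / B` of two stable subspaces. -/
def onQuot (A B : Submodule Ω V) (T : Module.End Ω V) (hA : ∀ v ∈ A, T v ∈ A)
    (hB : ∀ v ∈ B, T v ∈ B) : Module.End Ω (A ⧸ B.submoduleOf A) :=
  (B.submoduleOf A).mapQ (B.submoduleOf A) (T.restrict hA) fun v hv => hB v hv

/-- The eigenvalues of `F` on `A / B` are `q`-Weil numbers of weight `w`. -/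
def IsPureOn [CharZero Ω] (q : ℕ) (w : ℤ) (A B : Submodule Ω V) (F : Module.End Ω V) : Prop :=
  ∀ (α : Ω) (v : V), v ∈ A → v ∉ B → F v - α • v ∈ B → IsWeilNumber q w α

/-- `A` and `B` are stable under `F` and `Z`, and `A / B` is mw pure of weight `w`. -/
def IsMWPureOn [CharZero Ω] (q : ℕ) (w : ℤ) (A B : Submodule Ω V) (F Z : Module.End Ω V) : Prop :=
  ∃ (hFA : ∀ v ∈ A, F v ∈ A) (hFB : ∀ v ∈ B, F v ∈ B) (hZA : ∀ v ∈ A, Z v ∈ A)
    (hZB : ∀ v ∈ B, Z v ∈ B), IsMWPure q w (onQuot A B F hFA hFB) (onQuot A B Z hZA hZB)

end

/-- A representation `ρ` of the Weil group `G` of `E°` on `V`, with the geometric Frobenius elements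
`pt x` at the closed points `x` and `cusp y` at the points `y` of the boundary, the logarithm `mon` of
the monodromy of `K` and the logarithms `loc y` of the local monodromy at the points `y`. -/
structure SheafData (Ω : Type) [Field Ω] (V : Type) [AddCommGroup V] [Module Ω V]
    (P Y : Type) where
  G : Type
  [group : Group G]
  ρ : Representation Ω G V
  deg : G → ℤ
  pt : P → G
  f : P → ℕ
  cusp : Y → G
  mon : Module.End Ω V
  loc : Y → Module.End Ω V

attribute [instance] SheafData.group

namespace SheafData

variable {Ω : Type} [Field Ω] {V : Type} [AddCommGroup V] [Module Ω V] {P Y : Type}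
  (S : SheafData Ω V P Y)

/-- `A` is a subrepresentation, i.e. a lisse subsheaf. -/
def Stable (A : Submodule Ω V) : Prop := ∀ g, ∀ v ∈ A, S.ρ g v ∈ A

/-- The degrees of the Frobenius elements, and the relations between the operators. -/
structure IsTame (q : ℕ) : Prop where
  finite : Module.Finite Ω V
  f_pos : ∀ x, 0 < S.f x
  deg_pt : ∀ x, S.deg (S.pt x) = S.f x
  deg_cusp : ∀ y, S.deg (S.cusp y) = 1
  mon_act : ∀ g v, S.mon (S.ρ g v) = (q : Ω) ^ S.deg g • S.ρ g (S.mon v)
  pencil : ∀ y, IsPencil q (S.ρ (S.cusp y)) S.mon (S.loc y)

/-- The eigenvalues of the Frobenius element at some closed point, or at some point of the boundary,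
on the subquotient `A / B` of the lisse sheaf are Weil numbers of weight `w`. -/
def PureSomewhere [CharZero Ω] (q : ℕ) (w : ℤ) (A B : Submodule Ω V) : Prop :=
  (∃ x, IsPureOn (q ^ S.f x) w A B (S.ρ (S.pt x))) ∨ ∃ y, IsPureOn q w A B (S.ρ (S.cusp y))

/-- Deligne (Weil II) and Lafforgue: if the eigenvalues of one Frobenius element on a subquotient
`A / B` of the lisse sheaf are Weil numbers of weight `w`, then it is pure of weight `w` at all closed
points, and its nearby cycles at the points of the boundary are mw pure of weight `w`. (The
irreducible constituents are pure of some weight by Lafforgue, and the weights of their nearby cycles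
at the boundary are symmetric with respect to this weight by Deligne.) -/
def WeilTwo [CharZero Ω] (q : ℕ) : Prop :=
  ∀ A B : Submodule Ω V, S.Stable A → S.Stable B → B ≤ A → ∀ w : ℤ, S.PureSomewhere q w A B →
    (∀ x, IsPureOn (q ^ S.f x) w A B (S.ρ (S.pt x))) ∧
    ∀ y, IsMWPureOn q w A B (S.ρ (S.cusp y)) (S.loc y)

end SheafData

/-- The cohomology `V` of degree `i` of the fibres over the points which reduce to the component
`E`. -/
structure Component (Ω : Type) [Field Ω] [CharZero Ω] (V : Type) [AddCommGroup V] [Module Ω V]
    (P Y : Type) (q : ℕ) extends SheafData Ω V P Y where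
  tame : toSheafData.IsTame q
  weilTwo : toSheafData.WeilTwo q

namespace Component

variable {Ω : Type} [Field Ω] [CharZero Ω] {V : Type} [AddCommGroup V] [Module Ω V]
  {P Y : Type} {q : ℕ} (S : Component Ω V P Y q)

lemma pencil_disc (x : P) :
    IsPencil (q ^ S.f x) (S.ρ (S.pt x)) S.mon (0 : Module.End Ω V) where
  finite := S.tame.finite
  mon_comm v := by simp
  mon_frob v := by
    rw [S.tame.mon_act, S.tame.deg_pt, zpow_natCast]
    push_cast
    rfl
  loc_frob v := by simp

/-- The cohomology of the fibres over the open disc of the points which reduce to the closed point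
`x` of `E°`. -/
def disc (x : P) : Annulus Ω (q ^ S.f x) where
  V := V
  frob := S.ρ (S.pt x)
  mon := S.mon
  loc := 0
  pencil := S.pencil_disc x

/-- The cohomology of the fibres over the annulus or punctured disc of the points which reduce to
the node or cusp `y` of `E`. -/
def annulus (y : Y) : Annulus Ω q where
  V := V
  frob := S.ρ (S.cusp y)
  mon := S.mon
  loc := S.loc y
  pencil := S.tame.pencil y

/-- The annulus `y` of the component `E` (`S`) is also the annulus `y'` of the component `E'` (`S'`): it
joins the two components, and it consists of the points with `0 < v(t(s)) < w`. The cohomology `V` of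
the fibres over the annulus has the same Frobenius element for `E` and `E'`, and the logarithm of the
monodromy of `K` for `E'` is `mon + w loc y`. (The logarithm of the local monodromy is `- loc y`.) -/
structure Adjacent {P' Y' : Type} (y : Y) (S' : Component Ω V P' Y' q) (y' : Y') (w : ℚ) :
    Prop where
  frob : S'.ρ (S'.cusp y') = S.ρ (S.cusp y)
  mon : S'.mon = S.mon + (w : Ω) • S.loc y
  loc : S'.loc y' = - S.loc y

end Component

/-- Some fibre over the annulus has mw pure cohomology. -/
def SomePure {Ω : Type} [Field Ω] [CharZero Ω] {q : ℕ} (A : Annulus Ω q) (i : ℤ) : Prop :=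
  ∃ (e f : ℕ) (v : ℚ) (l m : Ω), 0 < e ∧ 0 < f ∧
    IsMWPure (q ^ f) i (A.frobAt f l m) (A.monAt e v)

end Pool.Agent.W2helper36.WN
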