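import Pool.Agent.W2helper36.WM.Fam
import Pool.Agent.W2helper36.WN.Defs

/-!
# Families over a `p`-adic curve: the propagation of mw purity
-/

set_option autoImplicit false
set_option linter.unusedSectionVars false

open Module

namespace Pool.Agent.W2helper36.WN

open Pool.Agent.Y143 Pool.Agent.Y163.MW Pool.Agent.N184.HK Pool.Agent.N184.HK.P_FRM
open Pool.Agent.W2helper36.WM

section

variable {Ω : Type} [Field Ω] [CharZero Ω] {V : Type} [AddCommGroup V] [Module Ω V] {q : ℕ}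

/-- The graph of the projection `A → A / B`. -/
def graph (A B : Submodule Ω V) : Submodule Ω (V × (A ⧸ B.submoduleOf A)) :=
  LinearMap.range (LinearMap.prod A.subtype (B.submoduleOf A).mkQ)

lemma mem_graph {A B : Submodule Ω V} {v : V} {c : A ⧸ B.submoduleOf A} :
    (v, c) ∈ graph A B ↔ ∃ h : v ∈ A, (B.submoduleOf A).mkQ ⟨v, h⟩ = c := by
  constructor
  · rintro ⟨a, ha⟩
    have h1 : (a : V) = v := congrArg Prod.fst ha
    have h2 : (B.submoduleOf A).mkQ a = c := congrArg Prod.snd ha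
    subst h1
    exact ⟨a.2, h2⟩
  · rintro ⟨h, rfl⟩
    exact ⟨⟨v, h⟩, rfl⟩

lemma graph_stable {A B : Submodule Ω V} {T : Module.End Ω V} {hA : ∀ v ∈ A, T v ∈ A}
    {hB : ∀ v ∈ B, T v ∈ B} {v : V} {c : A ⧸ B.submoduleOf A} (h : (v, c) ∈ graph A B) :
    (T v, onQuot A B T hA hB c) ∈ graph A B := by
  obtain ⟨h', rfl⟩ := mem_graph.1 h
  exact mem_graph.2 ⟨hA v h', rfl⟩

lemma graph_pow {A B : Submodule Ω V} {T : Module.End Ω V} {hA : ∀ v ∈ A, T v ∈ A}
    {hB : ∀ v ∈ B, T v ∈ B} {v : V} {c : A ⧸ B.submoduleOf A} (h : (v, c) ∈ graph A B) (s : ℕ) :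
    ((T ^ s) v, (onQuot A B T hA hB ^ s) c) ∈ graph A B := by
  induction s with
  | zero => simpa using h
  | succ s ih =>
    rw [pow_succ', Module.End.mul_apply, pow_succ', Module.End.mul_apply]
    exact graph_stable ih

lemma graph_zero {A B : Submodule Ω V} {v : V} : (v, (0 : A ⧸ B.submoduleOf A)) ∈ graph A B ↔
    v ∈ A ∧ v ∈ B := by
  rw [mem_graph]
  constructor
  · rintro ⟨h, h0⟩
    rw [Submodule.mkQ_apply, Submodule.Quotient.mk_eq_zero] at h0
    exact ⟨h, h0⟩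
  · rintro ⟨h, h0⟩
    refine ⟨h, ?_⟩
    rw [Submodule.mkQ_apply, Submodule.Quotient.mk_eq_zero]
    exact h0

lemma exists_graph {A B : Submodule Ω V} (c : A ⧸ B.submoduleOf A) : ∃ v ∈ A, (v, c) ∈ graph A B := by
  obtain ⟨a, rfl⟩ := Submodule.mkQ_surjective _ c
  exact ⟨a, a.2, mem_graph.2 ⟨a.2, rfl⟩⟩

lemma onQuot_rel {A B : Submodule Ω V} {F Z : Module.End Ω V} {hFA : ∀ v ∈ A, F v ∈ A}
    {hFB : ∀ v ∈ B, F v ∈ B} {hZA : ∀ v ∈ A, Z v ∈ A} {hZB : ∀ v ∈ B, Z v ∈ B}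
    (h : ∀ v, Z (F v) = (q : Ω) • F (Z v)) (c : A ⧸ B.submoduleOf A) :
    onQuot A B Z hZA hZB (onQuot A B F hFA hFB c) =
      (q : Ω) • onQuot A B F hFA hFB (onQuot A B Z hZA hZB c) := by
  obtain ⟨a, rfl⟩ := Submodule.mkQ_surjective _ c
  change (B.submoduleOf A).mkQ _ = (q : Ω) • (B.submoduleOf A).mkQ _
  rw [← map_smul]
  congr 1
  exact Subtype.ext (h a)

variable [IsAlgClosed Ω] [FiniteDimensional Ω V]

lemma quot_inj (hq : 1 < q) {w : ℤ} {A B : Submodule Ω V} {F Z : Module.End Ω V}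
    (hZF : ∀ v, Z (F v) = (q : Ω) • F (Z v)) (h : IsMWPureOn q w A B F Z) {s : ℕ} {x : V}
    (hx : x ∈ A) (hxw : x ∈ WS q F (w + s)) (h0 : (Z ^ s) x ∈ B) : x ∈ B := by
  obtain ⟨hFA, hFB, hZA, hZB, hP⟩ := h
  have hC := centred_of_pure hq (allWeil_of_pure hP) (onQuot_rel hZF) hP s
  have h1 : (x, (B.submoduleOf A).mkQ ⟨x, hx⟩) ∈ graph A B := mem_graph.2 ⟨hx, rfl⟩
  obtain ⟨c, hc, hxc⟩ := rel_right (Φ := F) (Φ' := onQuot A B F hFA hFB) (R := graph A B)
    (fun _ _ h => graph_stable h) h1 hxw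
  have h2 := graph_pow (hA := hZA) (hB := hZB) hxc s
  have h3 : (onQuot A B Z hZA hZB ^ s) c = 0 := by
    obtain ⟨h4, h5⟩ := mem_graph.1 h2
    rw [← h5, Submodule.mkQ_apply, Submodule.Quotient.mk_eq_zero]
    exact h0
  rw [hC.1 c hc h3] at hxc
  exact (graph_zero.1 hxc).2

lemma quot_surj (hq : 1 < q) {w : ℤ} {A B : Submodule Ω V} {F Z : Module.End Ω V}
    (hZF : ∀ v, Z (F v) = (q : Ω) • F (Z v)) (h : IsMWPureOn q w A B F Z) {s : ℕ} {y : V}
    (hy : y ∈ A) (hyw : y ∈ WS q F (w - s)) :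
    ∃ x ∈ A, x ∈ WS q F (w + s) ∧ y - (Z ^ s) x ∈ B := by
  obtain ⟨hFA, hFB, hZA, hZB, hP⟩ := h
  have hC := centred_of_pure hq (allWeil_of_pure hP) (onQuot_rel hZF) hP s
  have h1 : (y, (B.submoduleOf A).mkQ ⟨y, hy⟩) ∈ graph A B := mem_graph.2 ⟨hy, rfl⟩
  obtain ⟨c, hc, hyc⟩ := rel_right (Φ := F) (Φ' := onQuot A B F hFA hFB) (R := graph A B)
    (fun _ _ h => graph_stable h) h1 hyw
  rw [sub_eq_add_neg] at hc
  obtain ⟨d, hd, hdc⟩ := hC.2 c hc
  obtain ⟨x₀, -, hx₀⟩ := exists_graph (A := A) (B := B) d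
  obtain ⟨x, hx, hxd⟩ := rel_left (Φ := F) (Φ' := onQuot A B F hFA hFB) (R := graph A B)
    (fun _ _ h => graph_stable h) hx₀ hd
  obtain ⟨hxA, -⟩ := mem_graph.1 hxd
  refine ⟨x, hxA, hx, ?_⟩
  have h2 := graph_pow (hA := hZA) (hB := hZB) hxd s
  rw [hdc] at h2
  have h3 := sub_mem hyc h2
  rw [Prod.mk_sub_mk, sub_self] at h3
  exact (graph_zero.1 h3).2

/-- The eigenvalues of `F` are Weil numbers if this holds on the graded pieces. -/
lemma allWeil_of_quot {M : ℤ → Submodule Ω V} (hbot : ∃ a, M a = ⊥) (htop : ∃ a, M a = ⊤)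
    (hmono : Monotone M) {F Z : Module.End Ω V} {w : ℤ → ℤ}
    (h : ∀ a, IsMWPureOn q (w a) (M a) (M (a - 1)) F Z) : AllWeil q F := by
  intro α x hx0 hx
  obtain ⟨a, ha⟩ := hbot
  obtain ⟨t, ht⟩ := htop
  have h1 : ¬ x ∈ M a := by rw [ha, Submodule.mem_bot]; exact hx0
  have h2 : x ∈ M t := by rw [ht]; trivial
  have hat : a ≤ t := by
    by_contra hcon
    exact h1 (hmono (by omega) h2)
  obtain ⟨b, _, _, h3, h4⟩ := step (fun a => x ∈ M a) h1 hat h2
  obtain ⟨hFA, hFB, hZA, hZB, hP⟩ := h b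
  refine allWeil_of_pure hP α ((M (b - 1)).submoduleOf (M b) |>.mkQ ⟨x, h3⟩) ?_ ?_
  · intro h0
    rw [Submodule.mkQ_apply, Submodule.Quotient.mk_eq_zero] at h0
    exact h4 h0
  · change (Submodule.mkQ _) _ = α • (Submodule.mkQ _) _
    rw [← map_smul]
    congr 1
    exact Subtype.ext hx

/-- Scaling the logarithm of the monodromy. -/
lemma pure_smul {i : ℤ} {Φ N : Module.End Ω V} (h : IsMWPure q i Φ N) {c : Ω} (hc : c ≠ 0) :
    IsMWPure q i Φ (c • N) := by
  obtain ⟨M, hM, h1, h2⟩ := h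
  exact ⟨M, monodromy_smul hM hc, h1, h2⟩

end

variable {Ω : Type} [Field Ω] [CharZero Ω] [IsAlgClosed Ω] {V : Type} [AddCommGroup V]
  [Module Ω V] {P Y : Type} {q : ℕ}

/-- **Purity over a component.** If one Frobenius element, at a closed point or at a point of the
boundary, has the weights given by the monodromy filtration of `mon`, then the cohomology of all the
fibres over the tube of the component is mw pure, and of the fibres over the adjacent annuli, except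
for finitely many circles. -/
theorem Component.of_filtration (hq : 1 < q) (S : Component Ω V P Y q) {i : ℤ}
    {M : ℤ → Submodule Ω V} (hM : IsMonodromyFiltration S.mon M)
    (hpure : ∀ a, S.PureSomewhere q (a + i) (M a) (M (a - 1))) :
    (∀ x v, (S.disc x).PureAt i v) ∧
    ∀ y, ∃ T : Finset ℚ, T.card ≤ finrank Ω V ^ 2 ∧
      (∀ v ∉ T, (S.annulus y).PureAt i v) ∧
      ∀ v ∉ T, IsMWPure q i (S.ρ (S.cusp y)) (S.mon + (v : Ω) • S.loc y) := by
  have hfin : Module.Finite Ω V := S.tame.finite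
  have hqΩ : (q : Ω) ≠ 0 := by exact_mod_cast (by omega : q ≠ 0)
  have hqx : ∀ x, 1 < q ^ S.f x := fun x => Nat.one_lt_pow (S.tame.f_pos x).ne' hq
  have hadd : ∀ v : ℚ, S.mon + (v : Ω) • (0 : Module.End Ω V) = S.mon := fun v => by simp
  have hG : ∀ a, S.Stable (M a) := fun a g v hv =>
    hM.on.functorial hM.on (S.ρ g) (fun _ _ => trivial) (zpow_ne_zero (S.deg g) hqΩ)
      (fun x _ => S.tame.mon_act g x) a hv
  have hW := fun a : ℤ => S.weilTwo (M a) (M (a - 1)) (hG a) (hG (a - 1))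
    (hM.mono (by omega)) (a + i) (hpure a)
  refine ⟨fun x v => (S.disc x).pure_fibre (hqx x) ?_, fun y => ?_⟩
  · have h2 : (S.disc x).mon + (v : Ω) • (S.disc x).loc = S.mon := hadd v
    rw [h2]
    exact ⟨M, hM, fun a v hv => hG a _ v hv, fun a α v h1 h2 h3 => (hW a).1 x α v h1 h2 h3⟩
  · have hAll : AllWeil q (S.ρ (S.cusp y)) :=
      allWeil_of_quot hM.bot hM.top hM.mono fun a => (hW a).2 y
    have hN := (S.tame.pencil y).mon_frob
    have hZ := (S.tame.pencil y).loc_frob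
    obtain ⟨T, -, hT⟩ := pure_relative (N := S.loc y) (Z := S.mon) (i := i) hq hAll hZ hN
      (by ext v; exact ((S.tame.pencil y).mon_comm v).symm) hM
      (fun r s x hx hxw h0 => quot_inj hq hZ ((hW r).2 y) hx (by rwa [add_comm r i]) h0)
      (fun r s x hx hxw => by
        obtain ⟨z, h1, h2, h3⟩ := quot_surj hq hZ ((hW r).2 y) hx (by rwa [add_comm r i])
        exact ⟨z, h1, by rwa [add_comm i r], h3⟩)
    classical
    obtain ⟨c, hc⟩ := Infinite.exists_notMem_finset (insert 0 T)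
    rw [Finset.mem_insert, not_or] at hc
    have h2 := pure_smul (hT c hc.2) (inv_ne_zero hc.1)
    rw [smul_add, smul_smul, inv_mul_cancel₀ hc.1, one_smul, add_comm] at h2
    obtain ⟨T₁, h3, h4⟩ := pure_generic hq hAll hN hZ h2
    obtain ⟨T₂, h5, h6⟩ := finset_rat T₁ h3
    exact ⟨T₂, h5, fun v hv => (S.annulus y).pure_fibre hq (h4 v (h6 v hv)),
      fun v hv => h4 v (h6 v hv)⟩

/-- **Propagation.** If the cohomology of one fibre over the tube of a component is mw pure, then so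
is the cohomology of all these fibres, of the fibres over the adjacent annuli, except for finitely
many circles, and of the fibres over the tubes of the components at the other ends of the annuli,
except for finitely many values of the length of the annulus. -/
theorem Component.propagation (hq : 1 < q) (S : Component Ω V P Y q) {i : ℤ} {x₀ : P}
    (h : SomePure (S.disc x₀) i) :
    (∀ x v, (S.disc x).PureAt i v) ∧
    ∀ y, ∃ T : Finset ℚ, T.card ≤ finrank Ω V ^ 2 ∧ (∀ v ∉ T, (S.annulus y).PureAt i v) ∧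
      ∀ (P' Y' : Type) (S' : Component Ω V P' Y' q) (y' : Y') (w : ℚ), w ∉ T →
        S.Adjacent y S' y' w → ∀ x v, (S'.disc x).PureAt i v := by
  have hfin : Module.Finite Ω V := S.tame.finite
  have hqx : ∀ x, 1 < q ^ S.f x := fun x => Nat.one_lt_pow (S.tame.f_pos x).ne' hq
  have hadd : ∀ v : ℚ, S.mon + (v : Ω) • (0 : Module.End Ω V) = S.mon := fun v => by simp
  have h1 : IsMWPure (q ^ S.f x₀) i (S.ρ (S.pt x₀)) S.mon := by
    obtain ⟨e, f, v, l, m, he, hf, hp⟩ := h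
    have := (S.disc x₀).fibre_pure (hqx x₀) he hf hp
    have h2 : (S.disc x₀).mon + (v : Ω) • (S.disc x₀).loc = S.mon := hadd v
    rw [h2] at this
    exact this
  obtain ⟨M, hM, -, hpur⟩ := h1
  obtain ⟨h2, h3⟩ := S.of_filtration hq hM fun a =>
    Or.inl ⟨x₀, fun α v h1 h2 h3 => hpur a α v h1 h2 h3⟩
  refine ⟨h2, fun y => ?_⟩
  obtain ⟨T, h4, h5, h6⟩ := h3 y
  refine ⟨T, h4, h5, fun P' Y' S' y' w hw hadj => ?_⟩
  obtain ⟨M', hM', -, hpur'⟩ := h6 w hw
  rw [← hadj.mon] at hM'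
  rw [← hadj.frob] at hpur'
  exact (S'.of_filtration hq hM' fun a =>
    Or.inr ⟨y', fun α v h1 h2 h3 => hpur' a α v h1 h2 h3⟩).1

end Pool.Agent.W2helper36.WN
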